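import Pool.Agent.Y770.EL.Rev
import Pool.Agent.Y401.EL.Int
import Pool.Agent.Y901.EL.DOM

/-!
# Uniqueness for the coupled elliptic Dirichlet system fails in every dimension `n ≥ 2`

For every `n ≥ 2` there are a bounded domain of `ℝⁿ` with smooth connected boundary, two operators in
pure divergence form `- div (A grad w)`, without terms of order zero, strictly positive smooth `a`,
`b` and a smooth solution `(u, v)` of the system with `u` and `v` not identically zero. For `n ≥ 3`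
the domain is the solid of revolution `x² + (|w|² - 2)² < 1`, `w ∈ ℝⁿ⁻¹`.
-/

set_option autoImplicit false

open MeasureTheory Set Metric
open scoped ContDiff Topology

namespace Pool.Agent.Results.MP_f60174_an.EveryDimension

open Pool.Agent.Results.MP_f60174_an.DiscCounterexample
open Pool.Agent.Y770.EL (yv Dn AN S_INT contDiff_yv exists_H AN_smooth AN_symm ellOp_rev AN_ell
  energy')

section

variable {k : ℕ}

/-- the map to the plane -/
noncomputable def prj (X : E (k + 1)) : Plane := !₂[X 0, yv X]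

lemma contDiff_prj : ContDiff ℝ ∞ (prj : E (k + 1) → Plane) := by
  rw [contDiff_euclidean]
  intro i
  fin_cases i
  · show ContDiff ℝ ∞ (fun X : E (k + 1) => X 0)
    fun_prop
  · exact contDiff_yv

lemma smooth_comp {f : ℝ → ℝ → ℝ} (h : ContDiff ℝ ∞ (fun p : Plane => f (p 0) (p 1))) :
    ContDiff ℝ ∞ (fun X : E (k + 1) => f (X 0) (yv X)) :=
  h.comp contDiff_prj

lemma mem_closedBall_prj {X : E (k + 1)} (h : X 0 ^ 2 + yv X ^ 2 ≤ 1) :
    prj X ∈ closedBall (0 : Plane) 1 := (mem_closedBall_iff _).2 h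

/-- positive smooth functions on the solid of revolution -/
lemma smoothPos_rev {H : ℝ → ℝ} (hH : ContDiff ℝ ∞ H) (hH0 : ∀ y, 0 < H y) {a : Plane → ℝ}
    (ha : SmoothPos (ball (0 : Plane) 1) a)
    (hcl : closure (Dn k) = {X | X 0 ^ 2 + yv X ^ 2 ≤ 1}) :
    SmoothPos (Dn k) (fun X => 2 * (yv X + 2) * H (yv X) * a (prj X)) := by
  obtain ⟨⟨O, hO, hO1, hO2⟩, hpos⟩ := ha
  rw [closure_disc] at hO1 hpos
  have hy := contDiff_yv (k := k)
  have hHy : ContDiff ℝ ∞ (fun X : E (k + 1) => H (yv X)) := hH.comp hy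
  have h1 : ContDiff ℝ ∞ (fun X : E (k + 1) => 2 * (yv X + 2) * H (yv X)) :=
    (contDiff_const.mul (hy.add contDiff_const)).mul hHy
  refine ⟨⟨prj ⁻¹' O, hO.preimage contDiff_prj.continuous, ?_, ?_⟩, ?_⟩
  · rw [hcl]
    intro X hX
    exact hO1 (mem_closedBall_prj hX)
  · exact h1.contDiffOn.mul (hO2.comp contDiff_prj.contDiffOn fun X hX => hX)
  · rw [hcl]
    intro X hX
    have hX' : X 0 ^ 2 + yv X ^ 2 ≤ 1 := hX
    have h2 := hpos _ (mem_closedBall_prj hX')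
    have h3 : -1 ≤ yv X := by nlinarith [sq_nonneg (X 0)]
    have h4 : 0 < 2 * (yv X + 2) := by linarith
    exact mul_pos (mul_pos h4 (hH0 _)) h2

/-- the operators are admissible -/
lemma admissible_rev {H : ℝ → ℝ} (hH : ContDiff ℝ ∞ H) (hH0 : ∀ y, 0 < H y)
    (hk : 2 ≤ k) {P Q S : ℝ → ℝ → ℝ}
    (hP : ContDiff ℝ ∞ (fun X : E (k + 1) => P (X 0) (yv X)))
    (hQ : ContDiff ℝ ∞ (fun X : E (k + 1) => Q (X 0) (yv X)))
    (hS : ContDiff ℝ ∞ (fun X : E (k + 1) => S (X 0) (yv X)))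
    (hpos : ∀ x y : ℝ, x ^ 2 + y ^ 2 ≤ 1 → ∀ s t : ℝ, (1 / 10) * (s ^ 2 + t ^ 2) ≤
      P x y * s ^ 2 + 2 * Q x y * s * t + S x y * t ^ 2) :
    IsAdmissibleOp (Dn k) (AN H P Q S) (fun _ => 0) := by
  obtain ⟨h1, h2, h3, h4, h5, h6, h7, h8⟩ := Pool.Agent.Y901.EL.t_DOM k hk
  obtain ⟨y₀, -, hy₀⟩ := (isCompact_Icc (a := (-1 : ℝ)) (b := 1)).exists_isMinOn
    ⟨0, by norm_num, by norm_num⟩ hH.continuous.continuousOn
  have hell : ∀ X : E (k + 1), X 0 ^ 2 + yv X ^ 2 ≤ 1 → ∀ ξ : Fin (k + 1) → ℝ,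
      H y₀ / 20 * ∑ i, ξ i ^ 2 ≤ ∑ i, ∑ j, AN H P Q S i j X * ξ i * ξ j := by
    intro X hX ξ
    have e1 : -1 ≤ yv X := by nlinarith [sq_nonneg (X 0)]
    have e2 : yv X ≤ 1 := by nlinarith [sq_nonneg (X 0)]
    exact AN_ell (hH0 y₀) X (hy₀ ⟨e1, e2⟩) e1 (hpos _ _ hX) ξ
  have hsm := AN_smooth (k := k) hH hP hQ hS
  refine ⟨hsm, contDiff_const, AN_symm, ⟨H y₀ / 20, div_pos (hH0 _) (by norm_num), ?_⟩,
    ⟨H y₀ / 20 / 4, div_pos (div_pos (hH0 _) (by norm_num)) (by norm_num), ?_⟩⟩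
  · rw [h5]
    intro X hX ξ
    exact hell X hX ξ
  · intro w hw hw0
    refine energy' Pool.Agent.Y401.EL.t_INT h1 h3 ?_ hsm (div_pos (hH0 _) (by norm_num)) ?_ hw hw0
    · intro X hX
      have : X 0 ^ 2 + yv X ^ 2 < 1 := hX
      nlinarith [sq_nonneg (yv X)]
    · intro X hX ξ
      have : X 0 ^ 2 + yv X ^ 2 < 1 := hX
      exact hell X this.le ξ

lemma B_pos {x y : ℝ} (h : x ^ 2 + y ^ 2 ≤ 1) (s t : ℝ) :
    (1 / 10) * (s ^ 2 + t ^ 2) ≤ Bxx x y * s ^ 2 + 2 * Bxy x y * s * t + Byy x y * t ^ 2 := by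
  have h1 := A_pos (x := -y) (y := x) (by linarith) t (-s)
  have e0 : Bxx x y = Ayy (-y) x := by simp only [Bxx, Ayy]; ring
  have e1 : Bxy x y = -Axy (-y) x := by simp only [Bxy, Axy]; ring
  have e2 : Byy x y = Axx (-y) x := by simp only [Byy, Axx]; ring
  rw [e0, e1, e2]
  linarith

/-- a point with given coordinates -/
lemma exists_point (hk : 2 ≤ k) (x y : ℝ) (hy : -2 < y) :
    ∃ X : E (k + 1), X 0 = x ∧ yv X = y := by
  obtain ⟨m, rfl⟩ : ∃ m, k = m + 1 := ⟨k - 1, by omega⟩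
  refine ⟨WithLp.toLp 2 (Fin.cons x (Fin.cons (Real.sqrt (y + 2)) fun _ => 0)), rfl, ?_⟩
  unfold yv
  rw [Fin.sum_univ_succ]
  have h1 : (WithLp.toLp 2 (Fin.cons x (Fin.cons (Real.sqrt (y + 2)) fun _ => 0)) :
      E (m + 1 + 1)) (Fin.succ 0) = Real.sqrt (y + 2) := rfl
  have h2 : ∀ i : Fin m, (WithLp.toLp 2 (Fin.cons x (Fin.cons (Real.sqrt (y + 2)) fun _ => 0)) :
      E (m + 1 + 1)) (Fin.succ i.succ) = 0 := fun i => rfl
  rw [h1, Finset.sum_eq_zero (fun i _ => by rw [h2 i]; norm_num), Real.sq_sqrt (by linarith)]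
  ring

/-- the counterexample on the solid of revolution -/
theorem rev_main (hk : 2 ≤ k) : IsSmoothDomain (Dn k) ∧
    ∃ (A B : Fin (k + 1) → Fin (k + 1) → E (k + 1) → ℝ) (a b u v : E (k + 1) → ℝ),
      IsAdmissibleOp (Dn k) A (fun _ => 0) ∧ IsAdmissibleOp (Dn k) B (fun _ => 0) ∧
      SmoothPos (Dn k) a ∧ SmoothPos (Dn k) b ∧
      IsSolution (Dn k) A (fun _ => 0) B (fun _ => 0) a b u v ∧
      (∃ x ∈ Dn k, u x ≠ 0) ∧ (∃ x ∈ Dn k, v x ≠ 0) := by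
  obtain ⟨h1, h2, h3, h4, h5, h6, h7, h8⟩ := Pool.Agent.Y901.EL.t_DOM k hk
  obtain ⟨H, hH, hH0, hHd⟩ := exists_H ((k : ℝ) / 2)
  have hdom : IsSmoothDomain (Dn k) := by
    refine ⟨h1, h2, h3, h6, fun X => X 0 ^ 2 + yv X ^ 2 - 1, h7, ?_, ?_, ?_⟩
    · ext X
      show X 0 ^ 2 + yv X ^ 2 < 1 ↔ X 0 ^ 2 + yv X ^ 2 - 1 < 0
      rw [sub_neg]
    · rw [h4]
      ext X
      show X 0 ^ 2 + yv X ^ 2 = 1 ↔ X 0 ^ 2 + yv X ^ 2 - 1 = 0
      rw [sub_eq_zero]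
    · intro X hX
      exact h8 X (sub_eq_zero.1 hX)
  have cU : ContDiff ℝ ∞ (fun X : E (k + 1) => U (X 0) (yv X)) := smooth_comp contDiff_U
  have cV : ContDiff ℝ ∞ (fun X : E (k + 1) => V (X 0) (yv X)) := smooth_comp contDiff_V
  have opA : ∀ X : E (k + 1), -1 ≤ yv X → yv X ≤ 1 →
      ellOp (AN H Axx Axy Ayy) (fun _ => 0) (fun X : E (k + 1) => U (X 0) (yv X)) X =
      -(2 * (yv X + 2) * H (yv X) * ((1 - X 0 ^ 2 - yv X ^ 2) * X 0 * psi (X 0) (yv X))) := by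
    intro X e1 e2
    rw [ellOp_rev (P := Axx) (Q := Axy) (S := Ayy) (W := U) (Wx := U_x) (Wy := U_y) hH hHd
      (smooth_comp contDiff_Axx) (smooth_comp contDiff_Axy) (smooth_comp contDiff_Ayy) cU
      U_dx U_dy (fun x y => ((Axx_dx x y).mul (U_x_dx x y)).add ((Axy_dx x y).mul (U_y_dx x y)))
      (fun x y => ((Axy_dy x y).mul (U_x_dy x y)).add ((Ayy_dy x y).mul (U_y_dy x y))) X e1 e2]
    have e3 : ∀ x y : ℝ, Axx_x x y * U_x x y + Axx x y * U_x_x x y +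
        (Axy_x x y * U_y x y + Axy x y * U_y_x x y) +
        (Axy_y x y * U_x x y + Axy x y * U_x_y x y +
          (Ayy_y x y * U_y x y + Ayy x y * U_y_y x y)) =
        (1 - x ^ 2 - y ^ 2) * x * psi x y := by
      intro x y
      simp only [Axx, Axy, Ayy, U_x, U_y, Axx_x, Axy_x, Axy_y, Ayy_y, U_x_x, U_x_y, U_y_x, U_y_y,
        psi]
      ring
    rw [← e3]
  have opB : ∀ X : E (k + 1), -1 ≤ yv X → yv X ≤ 1 →
      ellOp (AN H Bxx Bxy Byy) (fun _ => 0) (fun X : E (k + 1) => V (X 0) (yv X)) X =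
      2 * (yv X + 2) * H (yv X) * ((1 - X 0 ^ 2 - yv X ^ 2) * yv X * psi (-(yv X)) (X 0)) := by
    intro X e1 e2
    rw [ellOp_rev (P := Bxx) (Q := Bxy) (S := Byy) (W := V) (Wx := V_x) (Wy := V_y) hH hHd
      (smooth_comp contDiff_Bxx) (smooth_comp contDiff_Bxy) (smooth_comp contDiff_Byy) cV
      V_dx V_dy (fun x y => ((Bxx_dx x y).mul (V_x_dx x y)).add ((Bxy_dx x y).mul (V_y_dx x y)))
      (fun x y => ((Bxy_dy x y).mul (V_x_dy x y)).add ((Byy_dy x y).mul (V_y_dy x y))) X e1 e2]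
    have e3 : ∀ x y : ℝ, Bxx_x x y * V_x x y + Bxx x y * V_x_x x y +
        (Bxy_x x y * V_y x y + Bxy x y * V_y_x x y) +
        (Bxy_y x y * V_x x y + Bxy x y * V_x_y x y +
          (Byy_y x y * V_y x y + Byy x y * V_y_y x y)) =
        -((1 - x ^ 2 - y ^ 2) * y * psi (-y) x) := by
      intro x y
      simp only [Bxx, Bxy, Byy, V_x, V_y, Bxx_x, Bxy_x, Bxy_y, Byy_y, V_x_x, V_x_y, V_y_x, V_y_y,
        psi]
      ring
    rw [e3]
    ring
  refine ⟨hdom, AN H Axx Axy Ayy, AN H Bxx Bxy Byy,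
    fun X => 2 * (yv X + 2) * H (yv X) * afun (prj X),
    fun X => 2 * (yv X + 2) * H (yv X) * bfun (prj X),
    fun X => U (X 0) (yv X), fun X => V (X 0) (yv X),
    admissible_rev hH hH0 hk (smooth_comp contDiff_Axx) (smooth_comp contDiff_Axy)
      (smooth_comp contDiff_Ayy) (fun x y h s t => A_pos h s t),
    admissible_rev hH hH0 hk (smooth_comp contDiff_Bxx) (smooth_comp contDiff_Bxy)
      (smooth_comp contDiff_Byy) (fun x y h s t => B_pos h s t),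
    smoothPos_rev hH hH0 smoothPos_a h5, smoothPos_rev hH hH0 smoothPos_b h5,
    ⟨cU, cV, ?_, ?_, ?_⟩, ?_, ?_⟩
  · intro X hX
    have hX' : X 0 ^ 2 + yv X ^ 2 < 1 := hX
    have e1 : -1 ≤ yv X := by nlinarith [sq_nonneg (X 0)]
    have e2 : yv X ≤ 1 := by nlinarith [sq_nonneg (X 0)]
    have h := (pos_R hX'.le).ne'
    have e : afun (prj X) * V (X 0) (yv X) =
        (1 - X 0 ^ 2 - yv X ^ 2) * X 0 * psi (X 0) (yv X) := by
      show psi (X 0) (yv X) / (4 + 6 * X 0 * yv X + 4 * (yv X) ^ 2 - (X 0) ^ 2) * _ = _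
      rw [V_eq, div_mul_eq_mul_div, div_eq_iff h]
      ring
    show ellOp (AN H Axx Axy Ayy) (fun _ => 0) (fun X : E (k + 1) => U (X 0) (yv X)) X +
      2 * (yv X + 2) * H (yv X) * afun (prj X) * V (X 0) (yv X) = 0
    rw [opA X e1 e2, mul_assoc (2 * (yv X + 2) * H (yv X)), e]
    ring
  · intro X hX
    have hX' : X 0 ^ 2 + yv X ^ 2 < 1 := hX
    have e1 : -1 ≤ yv X := by nlinarith [sq_nonneg (X 0)]
    have e2 : yv X ≤ 1 := by nlinarith [sq_nonneg (X 0)]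
    have h := (pos_S hX'.le).ne'
    have e : bfun (prj X) * U (X 0) (yv X) =
        (1 - X 0 ^ 2 - yv X ^ 2) * yv X * psi (-(yv X)) (X 0) := by
      show psi (-(yv X)) (X 0) / (4 - 6 * X 0 * yv X + 4 * (X 0) ^ 2 - (yv X) ^ 2) * _ = _
      rw [U_eq, div_mul_eq_mul_div, div_eq_iff h]
      ring
    show -(2 * (yv X + 2) * H (yv X) * bfun (prj X) * U (X 0) (yv X)) +
      ellOp (AN H Bxx Bxy Byy) (fun _ => 0) (fun X : E (k + 1) => V (X 0) (yv X)) X = 0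
    rw [opB X e1 e2, mul_assoc (2 * (yv X + 2) * H (yv X)), e]
    ring
  · rw [h4]
    intro X hX
    have hX' : X 0 ^ 2 + yv X ^ 2 = 1 := hX
    have h0 : 1 - X 0 ^ 2 - yv X ^ 2 = 0 := by linarith
    exact ⟨by show U (X 0) (yv X) = 0; rw [U_eq, h0]; ring,
      by show V (X 0) (yv X) = 0; rw [V_eq, h0]; ring⟩
  · obtain ⟨X, hx, hy⟩ := exists_point hk 0 (1 / 2) (by norm_num)
    refine ⟨X, ?_, ?_⟩
    · show X 0 ^ 2 + yv X ^ 2 < 1
      rw [hx, hy]; norm_num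
    · show U (X 0) (yv X) ≠ 0
      rw [hx, hy, U_eq]; norm_num
  · obtain ⟨X, hx, hy⟩ := exists_point hk (1 / 2) 0 (by norm_num)
    refine ⟨X, ?_, ?_⟩
    · show X 0 ^ 2 + yv X ^ 2 < 1
      rw [hx, hy]; norm_num
    · show V (X 0) (yv X) ≠ 0
      rw [hx, hy, V_eq]; norm_num

end

/-- **Uniqueness fails in every dimension `n ≥ 2`**, for operators without terms of order zero. -/
theorem result : ∀ n : ℕ, 2 ≤ n → ∃ D : Set (E n), IsSmoothDomain D ∧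
    ∃ (A B : Fin n → Fin n → E n → ℝ) (a b u v : E n → ℝ),
      IsAdmissibleOp D A (fun _ => 0) ∧ IsAdmissibleOp D B (fun _ => 0) ∧
      SmoothPos D a ∧ SmoothPos D b ∧
      IsSolution D A (fun _ => 0) B (fun _ => 0) a b u v ∧
      (∃ x ∈ D, u x ≠ 0) ∧ (∃ x ∈ D, v x ≠ 0) := by
  intro n hn
  rcases Nat.eq_or_lt_of_le hn with rfl | hn
  · refine ⟨ball (0 : E 2) 1, isSmoothDomain_disc, A, B, afun, bfun,
      fun p => U (p 0) (p 1), fun p => V (p 0) (p 1), admissible_A, admissible_B, smoothPos_a,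
      smoothPos_b, solution, ⟨!₂[0, 1 / 2], ?_, ?_⟩, ⟨!₂[1 / 2, 0], ?_, ?_⟩⟩
    · rw [mem_ball_iff]; norm_num
    · simp only [U]; norm_num
    · rw [mem_ball_iff]; norm_num
    · simp only [V]; norm_num
  · obtain ⟨k, rfl⟩ : ∃ k, n = k + 1 := ⟨n - 1, by omega⟩
    exact ⟨Dn k, rev_main (by omega)⟩

end Pool.Agent.Results.MP_f60174_an.EveryDimension
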